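import Mathlib
import Pool.Agent.Lib.helper21.Local

set_option autoImplicit false

open FirstOrder FirstOrder.Language Filter List Pool.Agent.Lib.helper21.Local

namespace Pool.Agent.H.MP_c850b7_lc

/-- Two structures realise the same complete types of finite tuples. -/
def Isotypic (L : FirstOrder.Language.{0, 0}) (A B : Type) [L.Structure A] [L.Structure B] :
    Prop :=
  ∀ n : ℕ, (∀ a : Fin n → A, ∃ b : Fin n → B, ∀ φ : L.Formula (Fin n), φ.Realize a ↔ φ.Realize b) ∧
    (∀ b : Fin n → B, ∃ a : Fin n → A, ∀ φ : L.Formula (Fin n), φ.Realize a ↔ φ.Realize b)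

inductive Op : ℕ → Type
  | t : Op 1
  | c : Op 1
  | s : ℕ → Op 1

def LL : FirstOrder.Language.{0, 0} := ⟨Op, fun _ => Empty⟩

instance : LL.IsAlgebraic := fun _ => inferInstanceAs (IsEmpty Empty)

abbrev P : Type := ℤ × List ℕ

def tP (x : P) : P := if x.2 = [] then (x.1 + 1, []) else (x.1, x.2.dropLast)
def cP (x : P) : P := if Even (x.1 - x.2.length) then x else tP x
def sP (i : ℕ) (x : P) : P := (x.1, x.2 ++ [i])

def act : {n : ℕ} → Op n → (Fin n → P) → P
  | _, .t, v => tP (v 0)
  | _, .c, v => cP (v 0)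
  | _, .s i, v => sP i (v 0)

instance : LL.Structure P where
  funMap := act
  RelMap := fun r => r.elim

def H (m : ℤ) : LL.Substructure P where
  carrier := {x | m ≤ x.1}
  fun_mem := by
    intro n f v hv
    have ht : ∀ x : P, m ≤ x.1 → m ≤ (tP x).1 := fun x hx => by
      unfold tP; split_ifs <;> simp only <;> omega
    cases f with
    | t => exact ht _ (hv 0)
    | c =>
      show m ≤ (cP (v 0)).1
      unfold cP; split_ifs
      · exact hv 0
      · exact ht _ (hv 0)
    | s i => exact hv 0

def up (N i : ℕ) : ℕ := if i < N then i else i + 1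

def sh (N : ℕ) : List ℕ → List ℕ
  | [] => []
  | i :: w => up N i :: w

def Ph (m : ℤ) (N : ℕ) (x : P) : P :=
  if m < x.1 then x else (m, replicate (m - x.1).toNat N ++ sh N x.2)

theorem rep_inj (N a b : ℕ) (w w' : List ℕ)
    (h : replicate a N ++ sh N w = replicate b N ++ sh N w') : a = b ∧ w = w' := by
  have hne : ∀ (w l : List ℕ), sh N w ≠ N :: l := by
    rintro (_ | ⟨i, w⟩) l h
    · cases h
    · have := (cons.inj h).1
      unfold up at this; split_ifs at this <;> omega
  induction a generalizing b with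
  | zero =>
    cases b with
    | zero =>
      refine ⟨rfl, ?_⟩
      rcases w with _ | ⟨i, w⟩ <;> rcases w' with _ | ⟨j, w'⟩ <;> simp [sh] at h ⊢
      refine ⟨?_, h.2⟩
      have := h.1
      unfold up at this; split_ifs at this <;> omega
    | succ b => exact absurd h (hne _ _)
  | succ a ih =>
    cases b with
    | zero => exact absurd h.symm (hne _ _)
    | succ b =>
      obtain ⟨h1, h2⟩ := ih b (cons.inj h).2
      exact ⟨by omega, h2⟩

theorem rep_surj (N : ℕ) (w : List ℕ) : ∃ a w', w = replicate a N ++ sh N w' := by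
  induction w with
  | nil => exact ⟨0, [], rfl⟩
  | cons i w ih =>
    by_cases h : i = N
    · obtain ⟨a, w', rfl⟩ := ih
      exact ⟨a + 1, w', by rw [h]; rfl⟩
    · refine ⟨0, (if i < N then i else i - 1) :: w, ?_⟩
      simp only [replicate_zero, nil_append, sh, up, cons.injEq, and_true]
      split_ifs <;> omega

def PH (m : ℤ) (N : ℕ) (x : P) : H m :=
  ⟨Ph m N x, show m ≤ (Ph m N x).1 by unfold Ph; split_ifs <;> omega⟩

theorem PH_bij (m : ℤ) (N : ℕ) : Function.Bijective (PH m N) := by
  constructor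
  · rintro ⟨k, w⟩ ⟨k', w'⟩ h
    have h' : Ph m N (k, w) = Ph m N (k', w') := congrArg Subtype.val h
    unfold Ph at h'
    simp only at h'
    split_ifs at h' with h1 h2 h2
    · exact h'
    · have := (Prod.mk.inj h').1; omega
    · have := (Prod.mk.inj h').1; omega
    · obtain ⟨h3, h4⟩ := rep_inj _ _ _ _ _ (Prod.mk.inj h').2
      exact Prod.ext (by simp only; omega) h4
  · rintro ⟨⟨k, w⟩, hk⟩
    have hk' : m ≤ k := hk
    by_cases h : m < k
    · exact ⟨(k, w), Subtype.ext (if_pos h)⟩
    · obtain ⟨a, w', rfl⟩ := rep_surj N w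
      refine ⟨(m - a, w'), Subtype.ext ?_⟩
      show Ph m N (m - a, w') = _
      unfold Ph
      rw [if_neg (by simp)]
      exact Prod.ext (by simp only; omega) (by simp)

theorem sh_len (N : ℕ) (w : List ℕ) : (sh N w).length = w.length := by cases w <;> rfl

theorem Ph_t (m : ℤ) (N : ℕ) (x : P) : Ph m N (tP x) = tP (Ph m N x) := by
  obtain ⟨k, w⟩ := x
  by_cases h : m < k
  · have : m < (tP (k, w)).1 := by unfold tP; split_ifs <;> simp only <;> omega
    unfold Ph; rw [if_pos this, if_pos h]
  · rcases w with _ | ⟨i, w⟩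
    · by_cases h2 : k = m
      · subst h2; simp [Ph, tP, sh]
      · obtain ⟨a, ha⟩ : ∃ a : ℕ, (m - k).toNat = a + 1 := ⟨(m - k).toNat - 1, by omega⟩
        have h3 : (m - (k + 1)).toNat = a := by omega
        have h4 : ¬ m < k + 1 := by omega
        simp [Ph, tP, sh, h, ha, h3, h4]
    · rcases w with _ | ⟨j, w⟩
      · simp [Ph, tP, sh, h]
      · simp [Ph, tP, sh, h, dropLast_append_of_ne_nil]

theorem Ph_c (m : ℤ) (N : ℕ) (x : P) : Ph m N (cP x) = cP (Ph m N x) := by
  have : (Ph m N x).1 - (Ph m N x).2.length = x.1 - x.2.length := by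
    unfold Ph; split_ifs
    · rfl
    · simp only [length_append, length_replicate, sh_len]; omega
  unfold cP
  rw [this]
  split_ifs
  · rfl
  · exact Ph_t m N x

theorem Ph_s (m : ℤ) (N i : ℕ) (h : i < N) (x : P) : Ph m N (sP i x) = sP i (Ph m N x) := by
  obtain ⟨k, w⟩ := x
  by_cases h1 : m < k
  · simp [Ph, sP, h1]
  · cases w <;> simp [Ph, sP, h1, sh, up, h]

theorem Ph_fix (m : ℤ) (x : P) (hx : m ≤ x.1) : ∀ᶠ N in atTop, Ph m N x = x := by
  obtain ⟨k, w⟩ := x
  filter_upwards [eventually_gt_atTop (w.headD 0)] with N hN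
  by_cases h1 : m < k
  · exact if_pos h1
  · obtain rfl : k = m := by simp only at hx; omega
    cases w with
    | nil => simp [Ph, sh]
    | cons i w => simp at hN; simp [Ph, sh, up, hN]

theorem elem (m : ℤ) {n : ℕ} (a : Fin n → H m) (φ : LL.Formula (Fin n)) :
    φ.Realize a ↔ φ.Realize (fun i => (a i : P)) := by
  have h1 := formula_ev (L := LL) (PH m) (PH_bij m) (fun n g => by
    cases g with
    | t => exact Eventually.of_forall fun j v => Subtype.ext (Ph_t m j _)
    | c => exact Eventually.of_forall fun j v => Subtype.ext (Ph_c m j _)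
    | s i =>
      filter_upwards [eventually_gt_atTop i] with j hj v
      exact Subtype.ext (Ph_s m j i hj _)) φ
  have h2 := eventually_all.2 fun i => Ph_fix m (a i) (a i).2
  obtain ⟨N, h3, h4⟩ := (h1.and h2).exists
  rw [← h3]
  have : (PH m N ∘ fun i => (a i : P)) = a := funext fun i => Subtype.ext (h4 i)
  rw [this]

/-- shifting by an even number is an automorphism -/
def shift (d : ℤ) : LL.Equiv P P where
  toFun x := (x.1 + 2 * d, x.2)
  invFun x := (x.1 - 2 * d, x.2)
  left_inv x := by simp
  right_inv x := by simp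
  map_fun' := by
    intro n f v
    have ht : ∀ x : P, ((tP x).1 + 2 * d, (tP x).2) = tP (x.1 + 2 * d, x.2) := fun x => by
      unfold tP; simp only; split_ifs
      · simp [add_right_comm]
      · rfl
    cases f with
    | t => exact ht _
    | c =>
      show ((cP (v 0)).1 + 2 * d, (cP (v 0)).2) = cP ((v 0).1 + 2 * d, (v 0).2)
      unfold cP
      have : Even ((v 0).1 + 2 * d - (v 0).2.length) ↔ Even ((v 0).1 - (v 0).2.length) := by
        simp only [Int.even_iff]; omega
      simp only [this]
      split_ifs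
      · rfl
      · exact ht _
    | s i => rfl
  map_rel' := fun r => r.elim

theorem into (m : ℤ) {n : ℕ} (b : Fin n → P) :
    ∃ a : Fin n → H m, ∀ φ : LL.Formula (Fin n), φ.Realize a ↔ φ.Realize b := by
  obtain ⟨k, hk⟩ := (Set.finite_range fun i => (b i).1).bddBelow
  refine ⟨fun i => ⟨shift |m - k| (b i), ?_⟩, fun φ => (elem m _ φ).trans ?_⟩
  · have := hk ⟨i, rfl⟩
    show m ≤ (b i).1 + 2 * |m - k|
    have h2 := le_abs_self (m - k)
    have h3 := abs_nonneg (m - k)
    simp only at this; omega
  · exact StrongHomClass.realize_formula (shift |m - k|) φ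

theorem closure_eq (m : ℤ) : Substructure.closure LL {((m, []) : P)} = H m := by
  refine le_antisymm (Substructure.closure_le.2 (by rintro _ rfl; exact le_refl m)) ?_
  have h1 : ∀ a : ℕ, ((m + a, []) : P) ∈ Substructure.closure LL {((m, []) : P)} := by
    intro a
    induction a with
    | zero => exact Substructure.subset_closure (by simp)
    | succ a ih =>
      have := (Substructure.closure LL {((m, []) : P)}).fun_mem Op.t (fun _ => (m + a, []))
        (fun _ => ih)
      rw [Nat.cast_succ, ← add_assoc]; exact this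
  rintro ⟨k, w⟩ hk
  have hk' : m ≤ k := hk
  induction w using List.reverseRecOn with
  | nil => have := h1 (k - m).toNat; rwa [show m + ((k - m).toNat : ℤ) = k by omega] at this
  | append_singleton w i ih =>
    exact (Substructure.closure LL {((m, []) : P)}).fun_mem (Op.s i) (fun _ => (k, w))
      (fun _ => ih hk)

theorem fg (m : ℤ) : Structure.FG LL (H m) :=
  (Substructure.fg_iff_structure_fg _).1 (closure_eq m ▸ Substructure.fg_closure_singleton _)

theorem not_fg : ¬ Structure.FG LL P := by
  intro h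
  obtain ⟨S, hS, h⟩ := Structure.fg_iff.1 h
  obtain ⟨k, hk⟩ := (hS.image Prod.fst).bddBelow
  have : Substructure.closure LL S ≤ H k :=
    Substructure.closure_le.2 fun x hx => hk ⟨x, hx, rfl⟩
  have h2 : k ≤ k - 1 := this (h ▸ Substructure.mem_top ((k - 1, []) : P))
  omega

theorem not_iso : IsEmpty (LL.Equiv (H 0) (H 1)) := by
  refine ⟨fun σ => ?_⟩
  have hop : ∀ (o : Op 1) (x : H 0), σ (Structure.funMap (L := LL) o fun _ => x) =
      Structure.funMap (L := LL) o fun _ => σ x := fun o x => σ.map_fun o _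
  obtain ⟨x, hx⟩ := σ.surjective ⟨(1, []), le_refl (1 : ℤ)⟩
  have hs : ∀ y : H 0, (σ y).1.2 = [] ↔ y.1.2 = [] := by
    intro y
    constructor
    · intro h
      by_contra hc
      obtain ⟨⟨k, w⟩, hk⟩ := y
      obtain ⟨w', i, rfl⟩ := (eq_nil_or_concat' w).resolve_left hc
      have := congrArg (fun z => z.1.2) (hop (Op.s i) ⟨(k, w'), hk⟩)
      exact absurd (h.symm.trans this) (by simp [Structure.funMap, act, sP])
    · intro h
      by_contra hc
      obtain ⟨w', i, hw⟩ := (eq_nil_or_concat' _).resolve_left hc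
      obtain ⟨z, hz⟩ := σ.surjective ⟨((σ y).1.1, w'), (σ y).2⟩
      have h1 := hop (Op.s i) z
      rw [hz] at h1
      have h2 : σ (Structure.funMap (L := LL) (Op.s i) fun _ => z) = σ y :=
        h1.trans (Subtype.ext (Prod.ext rfl hw.symm))
      have h3 := congrArg (fun z => z.1.2) (σ.injective h2)
      exact absurd (h3.trans h) (by simp [Structure.funMap, act, sP])
  obtain ⟨⟨k, w⟩, hk⟩ := x
  obtain rfl : w = [] := (hs _).1 (by rw [hx])
  have hk' : 0 ≤ k := hk
  by_cases h0 : k = 0
  · subst h0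
    have h1 := hop Op.c ⟨(0, []), hk⟩
    have h2 : (Structure.funMap (L := LL) Op.c fun _ => (⟨(0, []), hk⟩ : H 0)) = ⟨(0, []), hk⟩ :=
      Subtype.ext (by simp [Structure.funMap, act, cP])
    rw [h2, hx] at h1
    have := congrArg (fun z => z.1.1) h1
    simp [Structure.funMap, act, cP, tP] at this
  · have hk1 : (0 : ℤ) ≤ k - 1 := by omega
    have h1 := hop Op.t ⟨(k - 1, []), hk1⟩
    have h2 : (Structure.funMap (L := LL) Op.t fun _ => (⟨(k - 1, []), hk1⟩ : H 0)) =
        ⟨(k, []), hk⟩ := Subtype.ext (by simp [Structure.funMap, act, tP])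
    rw [h2, hx] at h1
    have h3 := (hs ⟨(k - 1, []), hk1⟩).2 rfl
    have h4 : (1 : ℤ) ≤ _ := (σ ⟨(k - 1, []), hk1⟩).2
    have := congrArg (fun z => z.1.1) h1
    simp [Structure.funMap, act, tP, h3] at this
    omega

end Pool.Agent.H.MP_c850b7_lc
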